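import Pool.Agent.N990.RT.Stm

/-!
# Project RT (helper990), part CSI (helper399): the spin wave inequality
-/

set_option autoImplicit false

open MeasureTheory
open Pool.Agent.N988.EA

namespace Pool.Agent.N399.RT

open Pool.Agent.N990.RT

noncomputable section

theorem cs_coe (x : ℝ) : cs (x : Ang) = Real.cos x := rfl

theorem cs_add_sub (x : Ang) (u : ℝ) :
    cs (x + (u : Ang)) + cs (x - (u : Ang)) - 2 * cs x = 2 * cs x * (Real.cos u - 1) := by
  induction x using QuotientAddGroup.induction_on with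
  | H x =>
    change cs (((x : ℝ) : Ang) + (u : Ang)) + cs (((x : ℝ) : Ang) - (u : Ang)) -
      2 * cs ((x : ℝ) : Ang) = 2 * cs ((x : ℝ) : Ang) * (Real.cos u - 1)
    rw [← AddCircle.coe_add, ← AddCircle.coe_sub, cs_coe, cs_coe, cs_coe, Real.cos_add,
      Real.cos_sub]
    ring

theorem abs_cs_le (x : Ang) : |cs x| ≤ 1 := by
  induction x using QuotientAddGroup.induction_on with
  | H x => exact Real.abs_cos_le_one x

theorem term_ge (β : ℝ) (x : Ang) (u : ℝ) :
    -(|β| * u ^ 2) ≤ β * (cs (x + (u : Ang)) + cs (x - (u : Ang)) - 2 * cs x) := by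
  rw [cs_add_sub]
  have h1 := Real.one_sub_sq_div_two_le_cos (x := u)
  have h2 := Real.cos_le_one u
  have h3 := abs_cs_le x
  have h4 : |β * (2 * cs x * (Real.cos u - 1))| ≤ |β| * u ^ 2 := by
    rw [abs_mul, abs_mul, abs_mul, abs_of_nonneg (by norm_num : (0 : ℝ) ≤ 2),
      abs_of_nonpos (by linarith : Real.cos u - 1 ≤ 0)]
    have h5 : 2 * |cs x| * -(Real.cos u - 1) ≤ u ^ 2 := by
      have h6 : |cs x| * -(Real.cos u - 1) ≤ 1 * -(Real.cos u - 1) := by
        gcongr
        linarith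
      linarith
    gcongr
  exact (abs_le.1 h4).1

/-- the shift -/
def sh {n : ℕ} (φ : Pt 2 (n + 1) → ℝ) (s : ℝ) : Vert 2 (n + 1) → Ang :=
  fun x => ((s * φ (Sum.inr x) : ℝ) : Ang)

theorem elim_add {n : ℕ} (φ : Pt 2 (n + 1) → ℝ) (hφ : ∀ t : Bool, φ (Sum.inl t) = 0) (s : ℝ)
    (τ : Bool → Ang) (σ : Vert 2 (n + 1) → Ang) (y : Pt 2 (n + 1)) :
    (Sum.elim τ (sh φ s + σ) : Pt 2 (n + 1) → Ang) y =
      (Sum.elim τ σ : Pt 2 (n + 1) → Ang) y + ((s * φ y : ℝ) : Ang) := by
  rcases y with t | x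
  · simp [hφ]
  · simp [sh, add_comm]

theorem act_ge {n : ℕ} (φ : Pt 2 (n + 1) → ℝ) (hφ : ∀ t : Bool, φ (Sum.inl t) = 0)
    (hE : ∑ e : Edge 2 (n + 1), (φ (bd (n + 1) e false) - φ (bd (n + 1) e true)) ^ 2 = 2)
    (β s : ℝ) (τ : Bool → Ang) (σ : Vert 2 (n + 1) → Ang) :
    -(2 * |β| * s ^ 2) ≤ act β (n + 1) (Sum.elim τ (sh φ s + σ)) +
      act β (n + 1) (Sum.elim τ (sh φ (-s) + σ)) - 2 * act β (n + 1) (Sum.elim τ σ) := by
  have h1 : act β (n + 1) (Sum.elim τ (sh φ s + σ)) +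
      act β (n + 1) (Sum.elim τ (sh φ (-s) + σ)) - 2 * act β (n + 1) (Sum.elim τ σ) =
      ∑ e : Edge 2 (n + 1), β * (cs (((Sum.elim τ σ : Pt 2 (n + 1) → Ang) (bd (n + 1) e false) -
          (Sum.elim τ σ : Pt 2 (n + 1) → Ang) (bd (n + 1) e true)) +
          ((s * (φ (bd (n + 1) e false) - φ (bd (n + 1) e true)) : ℝ) : Ang)) +
        cs (((Sum.elim τ σ : Pt 2 (n + 1) → Ang) (bd (n + 1) e false) -
          (Sum.elim τ σ : Pt 2 (n + 1) → Ang) (bd (n + 1) e true)) -
          ((s * (φ (bd (n + 1) e false) - φ (bd (n + 1) e true)) : ℝ) : Ang)) -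
        2 * cs ((Sum.elim τ σ : Pt 2 (n + 1) → Ang) (bd (n + 1) e false) -
          (Sum.elim τ σ : Pt 2 (n + 1) → Ang) (bd (n + 1) e true))) := by
    unfold Pool.Agent.N990.RT.act
    rw [← Finset.mul_sum, Finset.sum_sub_distrib, Finset.sum_add_distrib, ← Finset.mul_sum]
    have h2 : ∀ e : Edge 2 (n + 1), (Sum.elim τ (sh φ s + σ) : Pt 2 (n + 1) → Ang)
        (bd (n + 1) e false) - (Sum.elim τ (sh φ s + σ) : Pt 2 (n + 1) → Ang)
        (bd (n + 1) e true) =
        ((Sum.elim τ σ : Pt 2 (n + 1) → Ang) (bd (n + 1) e false) -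
          (Sum.elim τ σ : Pt 2 (n + 1) → Ang) (bd (n + 1) e true)) +
          ((s * (φ (bd (n + 1) e false) - φ (bd (n + 1) e true)) : ℝ) : Ang) := by
      intro e
      rw [elim_add φ hφ, elim_add φ hφ, mul_sub, AddCircle.coe_sub]
      abel
    have h3 : ∀ e : Edge 2 (n + 1), (Sum.elim τ (sh φ (-s) + σ) : Pt 2 (n + 1) → Ang)
        (bd (n + 1) e false) - (Sum.elim τ (sh φ (-s) + σ) : Pt 2 (n + 1) → Ang)
        (bd (n + 1) e true) =
        ((Sum.elim τ σ : Pt 2 (n + 1) → Ang) (bd (n + 1) e false) -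
          (Sum.elim τ σ : Pt 2 (n + 1) → Ang) (bd (n + 1) e true)) -
          ((s * (φ (bd (n + 1) e false) - φ (bd (n + 1) e true)) : ℝ) : Ang) := by
      intro e
      rw [elim_add φ hφ, elim_add φ hφ, mul_sub, AddCircle.coe_sub, neg_mul, neg_mul,
        AddCircle.coe_neg, AddCircle.coe_neg]
      abel
    simp only [h2, h3]
    ring
  rw [h1]
  have h4 : -(2 * |β| * s ^ 2) = ∑ e : Edge 2 (n + 1),
      -(|β| * (s * (φ (bd (n + 1) e false) - φ (bd (n + 1) e true))) ^ 2) := by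
    have h5 : ∀ e : Edge 2 (n + 1),
        -(|β| * (s * (φ (bd (n + 1) e false) - φ (bd (n + 1) e true))) ^ 2) =
        -(|β| * s ^ 2) * (φ (bd (n + 1) e false) - φ (bd (n + 1) e true)) ^ 2 := fun e => by ring
    simp only [h5]
    rw [← Finset.mul_sum, hE]
    ring
  rw [h4]
  exact Finset.sum_le_sum fun e _ => term_ge β _ _

/-- the pointwise inequality -/
theorem point (a b c r t : ℝ) (h : -(2 * r) ≤ a + b - 2 * c) :
    0 ≤ Real.exp a * (t * t) + -(2 * (Real.exp (-r) * Real.exp c)) * t + Real.exp b := by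
  have h1 : Real.exp (-r) * Real.exp c ≤ Real.exp (a / 2) * Real.exp (b / 2) := by
    rw [← Real.exp_add, ← Real.exp_add]
    apply Real.exp_le_exp.2
    linarith
  have h2 : Real.exp a = Real.exp (a / 2) * Real.exp (a / 2) := by
    rw [← Real.exp_add]; congr 1; ring
  have h3 : Real.exp b = Real.exp (b / 2) * Real.exp (b / 2) := by
    rw [← Real.exp_add]; congr 1; ring
  have h4 : 0 < Real.exp (-r) * Real.exp c := by positivity
  rcases le_total 0 t with ht | ht
  · rw [h2, h3]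
    nlinarith [sq_nonneg (Real.exp (a / 2) * t - Real.exp (b / 2)),
      mul_le_mul_of_nonneg_right h1 ht]
  · have h5 : 0 ≤ Real.exp a * (t * t) := by
      have := mul_self_nonneg t
      positivity
    have h6 : 0 < Real.exp b := Real.exp_pos b
    nlinarith [mul_nonneg_of_nonpos_of_nonpos (neg_nonpos.2 h4.le) ht]

/-! ### integrals -/

section

variable {n : ℕ} (h1 : S_BAS) (β : ℝ) (τ : Bool → Ang)

/-- the density -/
def w (β : ℝ) (τ : Bool → Ang) (σ : Vert 2 (n + 1) → Ang) : ℝ :=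
  Real.exp (Pool.Agent.N990.RT.act β (n + 1) (Sum.elim τ σ))

include h1

theorem w_cont : Continuous (w (n := n) β τ) := by
  refine Real.continuous_exp.comp ((h1 β (n + 1)).1.comp ?_)
  refine continuous_pi fun y => ?_
  rcases y with t | x
  · exact continuous_const
  · exact continuous_apply x

theorem w_bdd : ∃ C, ∀ σ, ‖w (n := n) β τ σ‖ ≤ C := by
  obtain ⟨C, hC⟩ := (h1 β (n + 1)).2.1
  refine ⟨Real.exp C, fun σ => ?_⟩
  unfold w
  rw [Real.norm_eq_abs, abs_of_pos (Real.exp_pos _)]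
  exact Real.exp_le_exp.2 ((le_abs_self _).trans (hC _))

theorem w_int (A : Set (Vert 2 (n + 1) → Ang)) (d : Vert 2 (n + 1) → Ang) :
    IntegrableOn (fun σ => w (n := n) β τ (d + σ)) A (refm (n + 1)) := by
  obtain ⟨C, hC⟩ := w_bdd (n := n) h1 β τ
  refine Integrable.integrableOn ?_
  refine Integrable.of_bound (C := C) ?_ (Filter.Eventually.of_forall fun σ => hC _)
  exact ((w_cont h1 β τ).comp (continuous_const.add continuous_id)).aestronglyMeasurable

theorem gib_real (A : Set (Vert 2 (n + 1) → Ang)) (hA : MeasurableSet A) :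
    (gib β (n + 1) τ).real A = (∫ σ in A, w (n := n) β τ σ ∂(refm (n + 1))) / Zf β (n + 1) τ := by
  have h2 := (h1 β (n + 1)).2.2.2.2.1 τ (A.indicator 1)
  rw [integral_indicator_one hA] at h2
  rw [h2, ← integral_indicator hA]
  congr 1
  refine integral_congr_ae (Filter.Eventually.of_forall fun σ => ?_)
  by_cases h : σ ∈ A
  · simp [h, w]
  · simp [h]

omit h1 in
theorem shift (A : Set (Vert 2 (n + 1) → Ang)) (hA : MeasurableSet A) (d : Vert 2 (n + 1) → Ang) :
    ∫ σ in A, w (n := n) β τ σ ∂(refm (n + 1)) =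
      ∫ σ in (fun σ => d + σ) ⁻¹' A, w (n := n) β τ (d + σ) ∂(refm (n + 1)) := by
  have hm : Measurable fun σ : Vert 2 (n + 1) → Ang => d + σ := measurable_const_add d
  rw [← integral_indicator hA, ← integral_indicator (hm hA),
    ← integral_add_left_eq_self (A.indicator (w (n := n) β τ)) d]
  rfl

end

theorem main (h1 : S_BAS) (h2 : S_ENE) : S_CSI := by
  intro β n i τ B hB s
  obtain ⟨φ, hφ, hφi, hE⟩ := h2 n i
  have hZ : 0 < Zf β (n + 1) τ := (h1 β (n + 1)).2.2.1.2 τ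
  set v : Vert 2 (n + 1) := Sum.inl i with hv
  have hmv : Measurable fun σ : Vert 2 (n + 1) → Ang => σ v := measurable_pi_apply v
  have hA0 : MeasurableSet {σ : Vert 2 (n + 1) → Ang | σ v ∈ B} := hmv hB
  have hAm : MeasurableSet {σ : Vert 2 (n + 1) → Ang | σ v - (s : Ang) ∈ B} :=
    (hmv.sub_const _) hB
  have hAp : MeasurableSet {σ : Vert 2 (n + 1) → Ang | σ v + (s : Ang) ∈ B} :=
    (hmv.add_const _) hB
  rw [gib_real h1 β τ _ hA0, gib_real h1 β τ _ hAm, gib_real h1 β τ _ hAp,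
    shift β τ _ hAm (sh φ s), shift β τ _ hAp (sh φ (-s))]
  have e1 : (fun σ : Vert 2 (n + 1) → Ang => sh φ s + σ) ⁻¹'
      {σ : Vert 2 (n + 1) → Ang | σ v - (s : Ang) ∈ B} = {σ | σ v ∈ B} := by
    ext σ
    simp only [Set.mem_preimage, Set.mem_ofPred_eq, Pi.add_apply, sh, hφi, mul_one]
    rw [add_sub_cancel_left]
  have e2 : (fun σ : Vert 2 (n + 1) → Ang => sh φ (-s) + σ) ⁻¹'
      {σ : Vert 2 (n + 1) → Ang | σ v + (s : Ang) ∈ B} = {σ | σ v ∈ B} := by
    ext σ
    simp only [Set.mem_preimage, Set.mem_ofPred_eq, Pi.add_apply, sh, hφi, mul_one]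
    rw [AddCircle.coe_neg, neg_add_cancel_comm]
  rw [e1, e2]
  set A : Set (Vert 2 (n + 1) → Ang) := {σ | σ v ∈ B} with hAdef
  set Ip := ∫ σ in A, w (n := n) β τ (sh φ s + σ) ∂(refm (n + 1)) with hIp
  set Im := ∫ σ in A, w (n := n) β τ (sh φ (-s) + σ) ∂(refm (n + 1)) with hIm
  set I0 := ∫ σ in A, w (n := n) β τ σ ∂(refm (n + 1)) with hI0
  have hq : ∀ t : ℝ, 0 ≤ Ip * (t * t) + -(2 * (Real.exp (-(|β| * s ^ 2)) * I0)) * t + Im := by
    intro t
    have h3 : Ip * (t * t) + -(2 * (Real.exp (-(|β| * s ^ 2)) * I0)) * t + Im =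
        ∫ σ in A, (w (n := n) β τ (sh φ s + σ) * (t * t) +
          -(2 * (Real.exp (-(|β| * s ^ 2)) * w (n := n) β τ σ)) * t +
          w (n := n) β τ (sh φ (-s) + σ)) ∂(refm (n + 1)) := by
      have i1 := w_int (n := n) h1 β τ A (sh φ s)
      have i2 := w_int (n := n) h1 β τ A (sh φ (-s))
      have i3 := w_int (n := n) h1 β τ A 0
      simp only [zero_add] at i3
      have i1' : IntegrableOn (fun σ => w (n := n) β τ (sh φ s + σ) * (t * t)) A
        (refm (n + 1)) := i1.mul_const _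
      have i3' : IntegrableOn (fun σ => -(2 * (Real.exp (-(|β| * s ^ 2)) * w (n := n) β τ σ)) * t)
        A (refm (n + 1)) := ((i3.const_mul _).const_mul _).neg.mul_const _
      have i13 : IntegrableOn (fun σ => w (n := n) β τ (sh φ s + σ) * (t * t) +
        -(2 * (Real.exp (-(|β| * s ^ 2)) * w (n := n) β τ σ)) * t) A (refm (n + 1)) :=
        i1'.add i3'
      rw [integral_add i13 i2, integral_add i1' i3', integral_mul_const,
        integral_mul_const, integral_neg, integral_const_mul, integral_const_mul]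
    rw [h3]
    refine integral_nonneg fun σ => ?_
    refine point _ _ _ (|β| * s ^ 2) t ?_
    have h4 := act_ge φ hφ hE β s τ σ
    linarith
  have hd := discrim_le_zero hq
  unfold discrim at hd
  have h5 : Real.exp (-(2 * |β| * s ^ 2)) = Real.exp (-(|β| * s ^ 2)) ^ 2 := by
    rw [← Real.exp_nat_mul]
    congr 1
    push_cast
    ring
  rw [h5, div_pow, div_mul_div_comm, ← mul_div_assoc, ← sq]
  refine div_le_div_of_nonneg_right ?_ (by positivity)
  nlinarith

/-- **CSI**: the spin wave inequality. -/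
theorem t_csi (h1 : Pool.Agent.N990.RT.S_BAS) (h2 : Pool.Agent.N990.RT.S_ENE) :
    Pool.Agent.N990.RT.S_CSI := main h1 h2

end

end Pool.Agent.N399.RT
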